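import Pool.Agent.MP_f2a227_gt.H71.Cover

/-!
A Hausdorff space `X` with `|X| > 2 ^ (sqL(X) * chi(X))`.
-/

namespace Pool.Agent.Results.MP_f2a227_gt.Counterexample

open Cardinal Set

/-- The least cardinality of a local base at `x`. -/
noncomputable def pointChar (X : Type) [TopologicalSpace X] (x : X) : Cardinal.{0} :=
  sInf {c | ∃ B : Set (Set X), (∀ U ∈ B, IsOpen U ∧ x ∈ U) ∧
    (∀ U, IsOpen U → x ∈ U → ∃ U' ∈ B, U' ⊆ U) ∧ #B = c}

/-- The character of `X`, taken to be infinite. -/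
noncomputable def character (X : Type) [TopologicalSpace X] : Cardinal.{0} :=
  max ℵ₀ (⨆ x : X, pointChar X x)

/-- The covering property of `X` for the cardinal `κ`. -/
def Covers (X : Type) [TopologicalSpace X] (κ : Cardinal.{0}) : Prop :=
  ∀ F : Set X, IsClosed F → ∀ 𝒰 : Set (Set X), (∀ U ∈ 𝒰, IsOpen U) → F ⊆ ⋃₀ 𝒰 →
    ∀ D : κ.ord.ToType → Set (Set X), ⋃ a, D a = 𝒰 →
      ∃ V : κ.ord.ToType → Set (Set X), (∀ a, V a ⊆ D a ∧ #(V a) ≤ κ) ∧
        F ⊆ ⋃ a, closure (⋃₀ V a)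

/-- The strict quasi-Lindelof number. -/
noncomputable def sqL (X : Type) [TopologicalSpace X] : Cardinal.{0} :=
  sInf {κ | ℵ₀ ≤ κ ∧ Covers X κ}

theorem result (μ : Cardinal.{0}) : ∃ (X : Type) (_ : TopologicalSpace X),
    T2Space X ∧ Covers X ℵ₀ ∧ sqL X = ℵ₀ ∧ μ ≤ #X ∧ 2 ^ (sqL X * character X) < #X := by
  let κ : Cardinal.{0} := max ℵ₀ (2 ^ ℵ₁ * #(Finset Pool.Agent.MP_f2a227_gt.H71.Lev))
  let L : Type := (max μ (Order.succ (2 ^ (ℵ₀ * κ)))).out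
  have hL : #L = max μ (Order.succ (2 ^ (ℵ₀ * κ))) := Cardinal.mk_out _
  let X : Type := Pool.Agent.MP_f2a227_gt.H71.X L
  have hX : #L ≤ #X := Pool.Agent.MP_f2a227_gt.H71.mk_le_X
  have hcov : Covers X ℵ₀ := by
    intro F hF 𝒰 h𝒰 hc D hD
    have : Countable (ℵ₀ : Cardinal.{0}).ord.ToType :=
      Cardinal.mk_le_aleph0_iff.1 (Cardinal.mk_ord_toType _).le
    obtain ⟨V, h1, h2⟩ := Pool.Agent.MP_f2a227_gt.H71.main_cover hF h𝒰 hc D hD
    exact ⟨V, fun a => ⟨(h1 a).1, Cardinal.le_aleph0_iff_set_countable.2 (h1 a).2⟩, h2⟩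
  have hs : sqL X = ℵ₀ :=
    le_antisymm (csInf_le' ⟨le_rfl, hcov⟩) (le_csInf ⟨ℵ₀, le_rfl, hcov⟩ fun _ h => h.1)
  have hχ : character X ≤ κ := by
    refine max_le_max le_rfl (ciSup_le' fun x => ?_)
    obtain ⟨B, h1, h2, h3⟩ := Pool.Agent.MP_f2a227_gt.H71.exists_base x
    refine le_trans (csInf_le' ?_) h3
    exact ⟨B, h1, h2, rfl⟩
  refine ⟨X, inferInstance, inferInstance, hcov, hs, ?_, ?_⟩
  · exact ((le_max_left _ _).trans hL.ge).trans hX
  · rw [hs]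
    refine lt_of_le_of_lt (Cardinal.power_le_power_left two_ne_zero (mul_le_mul_right hχ _)) ?_
    exact (Order.lt_succ _).trans_le (((le_max_right _ _).trans hL.ge).trans hX)

end Pool.Agent.Results.MP_f2a227_gt.Counterexample
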